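import Pool.Agent.Work.MP_db9399_dp.Interface

set_option autoImplicit false

namespace Pool.Agent.Work.MP_db9399_dp.helper31

open Finset Classical
open Pool.Agent.Work.MP_db9399_all (nb)
open Pool.Agent.Work.MP_db9399_bp_helper22 (Recol)

universe u

theorem glue_key {W : Type u} {β γ : Type} (gp : β → γ) (P : β → W → W)
    (P' : ∀ g, {b // gp b = g} → W → W)
    (h : ∀ g, Recol (fun _ : {b // gp b = g} => ()) (fun b => P b.1) (P' g)) :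
    ∀ g v w, v ≠ w → ((∃ b, gp b = g ∧ P' (gp b) ⟨b, rfl⟩ v = w) ↔ ∃ b, gp b = g ∧ P b v = w) := by
  intro g v w hvw
  have h3 := (h g).2.2 () v w hvw
  constructor
  · rintro ⟨b, hb, hw⟩
    subst hb
    obtain ⟨b1, -, hb1⟩ := h3.1 ⟨⟨b, rfl⟩, rfl, hw⟩
    exact ⟨b1.1, b1.2, hb1⟩
  · rintro ⟨b, hb, hw⟩
    obtain ⟨b1, -, hb1⟩ := h3.2 ⟨⟨b, hb⟩, rfl, hw⟩
    obtain ⟨b1, hb2⟩ := b1
    subst hb2
    exact ⟨b1, rfl, hb1⟩

theorem stmt_GLUE : Stmt_GLUE.{u} := by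
  intro W β γ gp E P P' hP h
  have key := glue_key gp P P' h
  have hinv : ∀ b v, P' (gp b) ⟨b, rfl⟩ (P' (gp b) ⟨b, rfl⟩ v) = v := fun b v =>
    (h (gp b)).1 ⟨b, rfl⟩ v
  have hdis : ∀ b b' v, b ≠ b' → P' (gp b) ⟨b, rfl⟩ v = P' (gp b') ⟨b', rfl⟩ v →
      P' (gp b) ⟨b, rfl⟩ v = v := by
    intro b b' v hbb hE
    by_contra hne
    by_cases hg : gp b' = gp b
    · have aux : ∀ g (hg' : gp b' = g), P' (gp b') ⟨b', rfl⟩ v = P' g ⟨b', hg'⟩ v := by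
        intro g hg'
        subst hg'
        rfl
      rw [aux _ hg] at hE
      exact hne ((h (gp b)).2.1 ⟨b, rfl⟩ ⟨b', hg⟩ v (by simpa [Subtype.ext_iff] using hbb) hE)
    · obtain ⟨b1, hb1, hw1⟩ := (key (gp b) v (P' (gp b) ⟨b, rfl⟩ v) (Ne.symm hne)).1 ⟨b, rfl, rfl⟩
      obtain ⟨b2, hb2, hw2⟩ := (key (gp b') v (P' (gp b) ⟨b, rfl⟩ v) (Ne.symm hne)).1
        ⟨b', rfl, hE.symm⟩
      have hne12 : b1 ≠ b2 := by
        rintro rfl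
        exact hg (hb2.symm.trans hb1)
      have h5 := hP.dis b1 b2 v hne12 (hw1.trans hw2.symm)
      exact hne (hw1.symm.trans h5)
  refine ⟨⟨hinv, hdis, ?_, ?_⟩, hinv, hdis, key⟩
  · intro b v hne
    obtain ⟨b1, hb1, hw1⟩ := (key (gp b) v (P' (gp b) ⟨b, rfl⟩ v) (Ne.symm hne)).1 ⟨b, rfl, rfl⟩
    rw [← hw1]
    apply hP.adj
    rw [hw1]
    exact hne
  · intro v w hvw
    obtain ⟨b, hb⟩ := hP.cov v w hvw
    obtain ⟨b1, -, hb1⟩ := (key (gp b) v w hvw.ne).2 ⟨b, rfl, hb⟩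
    exact ⟨b1, hb1⟩

end Pool.Agent.Work.MP_db9399_dp.helper31
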