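import Pool.Agent.Work.MP_db9399_dp.Interface

set_option autoImplicit false

namespace Pool.Agent.Work.MP_db9399_dp.helper31

open Finset Classical
open Pool.Agent.Work.MP_db9399_all (nb)
open Pool.Agent.Work.MP_db9399_bp_helper22 (Recol)

universe u

theorem sum_Pl {β γ M : Type*} [Fintype β] [AddCommMonoid M] (gp : β → γ) (g : γ) (f : β → M) :
    ∑ b : {b : β // gp b = g}, f b.1 = ∑ b ∈ univ.filter (fun b => gp b = g), f b := by
  rw [← Finset.sum_subtype_eq_sum_filter]
  apply Finset.sum_congr
  · ext b; simp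
  · intros; rfl

theorem card_Pl {β γ : Type*} [Fintype β] (gp : β → γ) (g : γ) :
    Fintype.card {b : β // gp b = g} = (univ.filter (fun b => gp b = g)).card := by
  rw [Fintype.card_subtype]

theorem stmt_EQC (hI : Stmt_ICOL.{u}) (hE : Stmt_EQG.{u}) (hG : Stmt_GLUE.{u})
    (hC : Stmt_CSUM.{u}) : Stmt_EQC.{u} := by
  intro J γ _ _
  obtain ⟨s0, hs0, hEq⟩ := hE J
  refine ⟨s0, hs0, ?_⟩
  intro V β N _ _ _ gp F Z V0 τ g0 s fc nd sg hV0 hcard hs1 hτ hgrp hdeg hzz hout hfcZ hs0g hsg hmean
  obtain ⟨P, hP, hPτ, hPg⟩ := hI gp F Z V0 τ g0 s hV0 hcard hs1 hτ hgrp hdeg hzz hout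
  have hfc0 : ∀ z ∈ V0, fc z = none := fun z hz => hfcZ z (hV0 hz)
  have hcs := hC gp F V0 τ fc P hP hPτ hfc0
  have hcnt : ∀ g j, ∑ b : Pl gp g, cnt (fun w : Option V => w.bind fc) (P b.1) j =
      ∑ v ∈ univ.filter (fun v => fc v = some j), ((nb F v).filter (fun w => τ v w = g)).card := by
    intro g j
    rw [← hcs g j]
    exact sum_Pl gp g (fun b => cnt (fun w : Option V => w.bind fc) (P b) j)
  have hex : ∀ g, ∃ P' : Pl gp g → Option V → Option V,
      Recol (fun _ : Pl gp g => ()) (fun b => P b.1) P' ∧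
        EqRes s0 P' (fun w : Option V => w.bind fc) (nd g) (sg g)
          (∑ b : Pl gp g, ∑ j, cnt (fun w : Option V => w.bind fc) (P b.1) j) := by
    intro g
    apply hEq (fun b : Pl gp g => P b.1) (fun w : Option V => w.bind fc) (nd g) (sg g)
    · rw [card_Pl]
      exact hs0g g
    · exact fun b v => hP.inv b.1 v
    · intro b b' v hbb h
      exact hP.dis b.1 b'.1 v (fun h' => hbb (Subtype.ext h')) h
    · exact hsg g
    · intro x
      have h1 : ((∑ b : Pl gp g, sq (fun w : Option V => w.bind fc) (nd g) (sg g) (P b.1) x : ℤ) : ℝ)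
          = ∑ j ∈ univ.filter (fun j => nd g j = x), (sg g j : ℝ) *
        ∑ v ∈ univ.filter (fun v => fc v = some j),
          ((nb F v).filter (fun w => τ v w = g)).card := by
        unfold sq
        rw [Finset.sum_comm, Int.cast_sum]
        apply Finset.sum_congr rfl
        intro j _
        rw [← Finset.mul_sum, Int.cast_mul]
        congr 1
        rw [← Nat.cast_sum, ← hcnt g j]
        push_cast
        rfl
      rw [h1, card_Pl]
      exact hmean g x
  choose P' hP'R hP'E using hex
  obtain ⟨hQ, hR⟩ := hG gp (star F V0) P P' hP hP'R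
  refine ⟨fun b => P' (gp b) ⟨b, rfl⟩, hQ, ?_, ?_, ?_⟩
  · intro b v w hvw h
    obtain ⟨b1, hb1, hw1⟩ := (hR.2.2 (gp b) (some v) (some w) (by simpa using hvw)).1 ⟨b, rfl, h⟩
    rw [← hb1]
    exact hPτ b1 v w hvw hw1
  · intro b v h
    obtain ⟨b1, hb1, hw1⟩ := (hR.2.2 (gp b) none (some v) (by simp)).1 ⟨b, rfl, h⟩
    rw [← hb1]
    exact hPg b1 v hw1
  · intro g
    have h1 : (fun b : Pl gp g => P' (gp b.1) ⟨b.1, rfl⟩) = P' g := by
      funext b
      obtain ⟨b, hb⟩ := b
      subst hb
      rfl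
    have h2 : ∑ b : Pl gp g, ∑ j, cnt (fun w : Option V => w.bind fc) (P b.1) j =
        ∑ v ∈ univ.filter (fun v => (fc v).isSome),
          ((nb F v).filter (fun w => τ v w = g)).card := by
      rw [Finset.sum_comm]
      rw [Finset.sum_congr rfl (fun j _ => hcnt g j)]
      rw [← Finset.sum_biUnion]
      · apply Finset.sum_congr
        · ext v
          simp only [mem_biUnion, mem_univ, true_and, mem_filter, Option.isSome_iff_exists]
        · intros; rfl
      · intro j _ j' _ hjj
        simp only [Function.onFun]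
        rw [Finset.disjoint_left]
        intro v hv hv'
        simp only [mem_filter, mem_univ, true_and] at hv hv'
        exact hjj (Option.some.inj (hv.symm.trans hv'))
    have h3 := hP'E g
    rw [h2] at h3
    rw [← h1] at h3
    exact h3

end Pool.Agent.Work.MP_db9399_dp.helper31
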